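import Pool.Agent.Helper65.TU.Stmts
import Pool.Agent.Helper65.TU.Basic

set_option autoImplicit false

open Set Filter Topology

namespace Pool.Agent.Helper65.TU

universe u v

theorem st_UNC (hS : ST_SOL.{u, v}) : ST_UNC.{u, v} := by
  classical
  intro Γ X _ _ e co C hC
  refine ⟨?_, ?_, ?_⟩
  · rintro x y ⟨s, hs, hy⟩
    obtain ⟨T, hT, hTn⟩ := hC.mul (fun g => s g / 2) (fun g => by
      rw [abs_div, abs_of_pos (by norm_num : (0 : ℝ) < 2), div_le_one (by norm_num)]
      exact hs g)
    have h1 : y = (2 : ℝ) • T x := by
      have h2 : y - (2 : ℝ) • T x = 0 := by
        apply hC.sep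
        intro g
        rw [map_sub, map_smul, hT, hy, smul_eq_mul]
        ring
      exact sub_eq_zero.1 h2
    rw [h1, norm_smul, Real.norm_eq_abs, abs_of_pos (by norm_num : (0 : ℝ) < 2)]
    have := hTn x
    linarith
  · intro x l
    set good : Γ → Prop := fun g => |co g x| ≤ 2 * |co g l| with hgood
    obtain ⟨T, hT, hTn⟩ := hC.mul (fun g => if good g then 1 else 0) (fun g => by
      by_cases h : good g
      · simp [h]
      · simp [h])
    refine ⟨T x, x - T x, by abel, ?_, ?_, ?_⟩
    · refine ⟨fun g => if good g then co g x / co g l else 0, ?_, ?_⟩
      · intro g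
        by_cases h : good g
        · simp only [if_pos h]
          rw [abs_div]
          exact div_le_of_le_mul₀ (abs_nonneg _) (by norm_num) h
        · simp only [if_neg h]
          norm_num
      · intro g
        rw [hT]
        by_cases h : good g
        · simp only [if_pos h]
          by_cases hl : co g l = 0
          · have h0 : co g x = 0 := by
              have h2 : |co g x| ≤ 2 * |co g l| := h
              rw [hl, abs_zero, mul_zero] at h2
              exact abs_eq_zero.1 (le_antisymm h2 (abs_nonneg _))
            rw [h0, hl]; ring
          · field_simp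
        · simp only [if_neg h]
          ring
    · refine ⟨fun g => if good g then 0 else 1, ?_, ?_⟩
      · intro g
        by_cases h : good g
        · simp [h]
        · simp [h]
      · intro g
        rw [map_sub, hT]
        by_cases h : good g
        · simp [h]
        · simp [h]
    · refine ⟨fun g => if good g then 0 else co g x / (co g x - co g l), ?_, ?_⟩
      · intro g
        by_cases h : good g
        · simp [h]
        · simp only [if_neg h]
          rw [abs_div]
          apply div_le_of_le_mul₀ (abs_nonneg _) (by norm_num)
          have h2 : 2 * |co g l| < |co g x| := not_le.1 h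
          have h3 : |co g x| ≤ |co g x - co g l| + |co g l| := by
            have := abs_add_le (co g x - co g l) (co g l)
            rwa [sub_add_cancel] at this
          linarith
      · intro g
        rw [map_sub, hT, map_sub]
        by_cases h : good g
        · simp [h]
        · simp only [if_neg h]
          have h2 : 2 * |co g l| < |co g x| := not_le.1 h
          have h3 : co g x - co g l ≠ 0 := by
            intro h0
            have h5 : co g x = co g l := sub_eq_zero.1 h0
            rw [h5] at h2
            have := abs_nonneg (co g l)
            linarith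
          field_simp
          ring
  · intro K hK
    refine ⟨_, WCpt.smul (hS Γ X e co C hC K hK) (2 : ℝ), ?_⟩
    rintro x hx y ⟨s, hs, hy⟩
    refine ⟨(1 / 2 : ℝ) • y, ⟨x, hx, fun g => s g / 2, ?_, ?_⟩, ?_⟩
    · intro g
      show |s g / 2| ≤ 1
      rw [abs_div, abs_of_pos (by norm_num : (0 : ℝ) < 2), div_le_one (by norm_num)]
      exact hs g
    · intro g
      rw [map_smul, hy, smul_eq_mul]
      ring
    · show (2 : ℝ) • ((1 / 2 : ℝ) • y) = y
      rw [smul_smul]
      norm_num

end Pool.Agent.Helper65.TU
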